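import Mathlib
import Pool.Agent.Lib.MP_066b7c_al.Own

/-!
For generic subspaces `S₁ ⊆ A₁ ⊗ B₁`, `S₂ ⊆ A₂ ⊗ B₂` (a nonempty Zariski open set of pairs of points of
the Grassmannians) one has `r(S₁ ⊗ S₂) = r(S₁) r(S₂)`.
-/

set_option autoImplicit false

namespace Pool.Agent.Results.MP_066b7c_al.GenericMinRank

open MvPolynomial

/-- `r(S)`: the least rank of a nonzero matrix in `S`. -/
noncomputable def minRank {m n : Type} [Fintype m] [Fintype n]
    (S : Submodule ℂ (Matrix m n ℂ)) : ℕ :=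
  sInf {r : ℕ | ∃ s ∈ S, s ≠ 0 ∧ s.rank = r}

/-- `S₁ ⊗ S₂`: the span of the Kronecker products `X ⊗ Y`, `X ∈ S₁`, `Y ∈ S₂`. -/
def tensor {a1 b1 a2 b2 : ℕ} (S1 : Submodule ℂ (Matrix (Fin a1) (Fin b1) ℂ))
    (S2 : Submodule ℂ (Matrix (Fin a2) (Fin b2) ℂ)) :
    Submodule ℂ (Matrix (Fin a1 × Fin a2) (Fin b1 × Fin b2) ℂ) :=
  Submodule.span ℂ {x | ∃ X ∈ S1, ∃ Y ∈ S2, x = Matrix.kronecker X Y}

/-- The least `r` with `(a - r)(b - r) < k` (truncated subtraction). -/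
noncomputable def genericRank (a b k : ℕ) : ℕ := sInf {r : ℕ | (a - r) * (b - r) < k}

/-- The value of a polynomial in the entries of the matrices of the tuples `M`, `N`. -/
noncomputable def value {k1 a1 b1 k2 a2 b2 : ℕ} (M : Fin k1 → Matrix (Fin a1) (Fin b1) ℂ)
    (N : Fin k2 → Matrix (Fin a2) (Fin b2) ℂ)
    (P : MvPolynomial ((Fin k1 × Fin a1 × Fin b1) ⊕ (Fin k2 × Fin a2 × Fin b2)) ℂ) : ℂ :=
  eval (Sum.elim (fun t : Fin k1 × Fin a1 × Fin b1 => M t.1 t.2.1 t.2.2)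
    (fun t : Fin k2 × Fin a2 × Fin b2 => N t.1 t.2.1 t.2.2)) P

/-- `U` is a Zariski open subset of the product of the Grassmannians of the subspaces of dimensions
`k1`, `k2`: its members have these dimensions, and there is a family of polynomials such that, for
linearly independent `M`, `N`, the pair of the spans of `M`, `N` is in `U` if and only if some
polynomial of the family does not vanish at `(M, N)`. -/
def IsZariskiOpen (a1 b1 k1 a2 b2 k2 : ℕ) (U : Set (Submodule ℂ (Matrix (Fin a1) (Fin b1) ℂ) ×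
    Submodule ℂ (Matrix (Fin a2) (Fin b2) ℂ))) : Prop :=
  (∀ S ∈ U, Module.finrank ℂ S.1 = k1 ∧ Module.finrank ℂ S.2 = k2) ∧
  ∃ F : Set (MvPolynomial ((Fin k1 × Fin a1 × Fin b1) ⊕ (Fin k2 × Fin a2 × Fin b2)) ℂ),
    ∀ (M : Fin k1 → Matrix (Fin a1) (Fin b1) ℂ) (N : Fin k2 → Matrix (Fin a2) (Fin b2) ℂ),
      LinearIndependent ℂ M → LinearIndependent ℂ N →
      ((Submodule.span ℂ (Set.range M), Submodule.span ℂ (Set.range N)) ∈ U ↔
        ∃ P ∈ F, value M N P ≠ 0)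

section Aux

variable {k1 a1 b1 k2 a2 b2 : ℕ}

/-- The linear substitution of the tuples. -/
noncomputable def subst (g : Matrix (Fin k1) (Fin k1) ℂ) (h : Matrix (Fin k2) (Fin k2) ℂ) :
    (Fin k1 × Fin a1 × Fin b1) ⊕ (Fin k2 × Fin a2 × Fin b2) →
      MvPolynomial ((Fin k1 × Fin a1 × Fin b1) ⊕ (Fin k2 × Fin a2 × Fin b2)) ℂ :=
  Sum.elim (fun t => ∑ s, C (g t.1 s) * X (Sum.inl (s, t.2.1, t.2.2)))
    (fun t => ∑ s, C (h t.1 s) * X (Sum.inr (s, t.2.1, t.2.2)))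

theorem value_subst (g : Matrix (Fin k1) (Fin k1) ℂ) (h : Matrix (Fin k2) (Fin k2) ℂ)
    (M : Fin k1 → Matrix (Fin a1) (Fin b1) ℂ) (N : Fin k2 → Matrix (Fin a2) (Fin b2) ℂ)
    (P : MvPolynomial ((Fin k1 × Fin a1 × Fin b1) ⊕ (Fin k2 × Fin a2 × Fin b2)) ℂ) :
    value M N (bind₁ (subst g h) P) =
      value (fun i => ∑ s, g i s • M s) (fun i => ∑ s, h i s • N s) P := by
  have h1 : value M N (bind₁ (subst g h) P) =
      eval (fun i => eval (Sum.elim (fun t : Fin k1 × Fin a1 × Fin b1 => M t.1 t.2.1 t.2.2)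
        (fun t : Fin k2 × Fin a2 × Fin b2 => N t.1 t.2.1 t.2.2)) (subst g h i)) P :=
    eval₂Hom_bind₁ _ _ _ _
  rw [h1]
  unfold value
  congr 1
  apply congrArg
  funext t
  rcases t with t | t
  · simp [subst, Matrix.sum_apply]
  · simp [subst, Matrix.sum_apply]

theorem exists_coeff {k a b : ℕ} {M M' : Fin k → Matrix (Fin a) (Fin b) ℂ}
    (h : Submodule.span ℂ (Set.range M') = Submodule.span ℂ (Set.range M)) :
    ∃ g : Matrix (Fin k) (Fin k) ℂ, M' = fun i => ∑ s, g i s • M s := by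
  have h1 : ∀ i, ∃ c : Fin k → ℂ, ∑ s, c s • M s = M' i := by
    intro i
    rw [← Submodule.mem_span_range_iff_exists_fun, ← h]
    exact Submodule.subset_span ⟨i, rfl⟩
  choose g hg using h1
  exact ⟨g, funext fun i => (hg i).symm⟩

theorem span_eq {k a b : ℕ} {M : Fin k → Matrix (Fin a) (Fin b) ℂ}
    (hM : LinearIndependent ℂ M) (g : Matrix (Fin k) (Fin k) ℂ)
    (hM' : LinearIndependent ℂ (fun i => ∑ s, g i s • M s)) :
    Submodule.span ℂ (Set.range (fun i => ∑ s, g i s • M s)) =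
      Submodule.span ℂ (Set.range M) := by
  refine Submodule.eq_of_le_of_finrank_eq ?_ ?_
  · rw [Submodule.span_le]
    rintro _ ⟨i, rfl⟩
    exact Submodule.sum_mem _ fun s _ => Submodule.smul_mem _ _ (Submodule.subset_span ⟨s, rfl⟩)
  · rw [finrank_span_eq_card hM, finrank_span_eq_card hM']

theorem tensor_span (M : Fin k1 → Matrix (Fin a1) (Fin b1) ℂ)
    (N : Fin k2 → Matrix (Fin a2) (Fin b2) ℂ) :
    tensor (Submodule.span ℂ (Set.range M)) (Submodule.span ℂ (Set.range N)) =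
      Submodule.span ℂ {x : Matrix (Fin a1 × Fin a2) (Fin b1 × Fin b2) ℂ |
        ∃ i j, x = Matrix.kroneckerMap (fun u v : ℂ => u * v) (M i) (N j)} := by
  apply le_antisymm
  · unfold tensor
    rw [Submodule.span_le]
    rintro _ ⟨A, hA, B, hB, rfl⟩
    obtain ⟨α, rfl⟩ := (Submodule.mem_span_range_iff_exists_fun ℂ).1 hA
    obtain ⟨β, rfl⟩ := (Submodule.mem_span_range_iff_exists_fun ℂ).1 hB
    have h1 := Pool.Agent.Lib.MP066b7c.tens_kron M N α β
    rw [← Pool.Agent.Lib.MP066b7c.tens_eq] at h1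
    show Matrix.kroneckerMap (fun u v : ℂ => u * v) (∑ s, α s • M s) (∑ t, β t • N t) ∈ _
    rw [← h1]
    exact Submodule.sum_mem _ fun p _ => Submodule.smul_mem _ _
      (Submodule.subset_span ⟨p.1, p.2, rfl⟩)
  · rw [Submodule.span_le]
    rintro _ ⟨i, j, rfl⟩
    exact Submodule.subset_span ⟨M i, Submodule.subset_span ⟨i, rfl⟩, N j,
      Submodule.subset_span ⟨j, rfl⟩, rfl⟩

end Aux

/-- Generic subspaces satisfy `r(S₁ ⊗ S₂) = r(S₁) r(S₂)`, and `r(Sᵢ)` is the least `r` with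
`(aᵢ - r)(bᵢ - r) < kᵢ`. -/
theorem result (a1 b1 k1 a2 b2 k2 : ℕ) (h1 : 1 ≤ k1) (h1' : k1 ≤ a1 * b1) (h2 : 1 ≤ k2)
    (h2' : k2 ≤ a2 * b2) :
    ∃ U : Set (Submodule ℂ (Matrix (Fin a1) (Fin b1) ℂ) ×
        Submodule ℂ (Matrix (Fin a2) (Fin b2) ℂ)),
      IsZariskiOpen a1 b1 k1 a2 b2 k2 U ∧ U.Nonempty ∧
      ∀ S1 S2, (S1, S2) ∈ U →
        minRank (tensor S1 S2) = minRank S1 * minRank S2 ∧
        minRank S1 = genericRank a1 b1 k1 ∧ minRank S2 = genericRank a2 b2 k2 := by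
  obtain ⟨P, hP0, hP⟩ := Pool.Agent.Lib.MP066b7c.main_explicit a1 b1 k1 a2 b2 k2 h1 h1' h2 h2'
  have hP' : ∀ (M : Fin k1 → Matrix (Fin a1) (Fin b1) ℂ)
      (N : Fin k2 → Matrix (Fin a2) (Fin b2) ℂ), value M N P ≠ 0 →
      LinearIndependent ℂ M ∧ LinearIndependent ℂ N := fun M N h => ⟨(hP M N h).1, (hP M N h).2.1⟩
  refine ⟨{S | ∃ M N, S = (Submodule.span ℂ (Set.range M), Submodule.span ℂ (Set.range N)) ∧
    value (k1 := k1) (k2 := k2) M N P ≠ 0}, ⟨?_, ?_⟩, ?_, ?_⟩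
  · rintro S ⟨M, N, rfl, hMN⟩
    obtain ⟨hM, hN⟩ := hP' M N hMN
    have e1 := finrank_span_eq_card hM
    have e2 := finrank_span_eq_card hN
    rw [Fintype.card_fin] at e1 e2
    exact ⟨e1, e2⟩
  · refine ⟨Set.range fun p : Matrix (Fin k1) (Fin k1) ℂ × Matrix (Fin k2) (Fin k2) ℂ =>
      bind₁ (subst p.1 p.2) P, ?_⟩
    intro M N hM hN
    constructor
    · rintro ⟨M', N', h3, h4⟩
      obtain ⟨h5, h6⟩ := Prod.mk.inj h3
      obtain ⟨g, hg⟩ := exists_coeff h5.symm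
      obtain ⟨h, hh⟩ := exists_coeff h6.symm
      refine ⟨_, ⟨(g, h), rfl⟩, ?_⟩
      show value M N (bind₁ (subst g h) P) ≠ 0
      rw [value_subst, ← hg, ← hh]
      exact h4
    · rintro ⟨_, ⟨⟨g, h⟩, rfl⟩, h4⟩
      have h5 : value M N (bind₁ (subst g h) P) ≠ 0 := h4
      rw [value_subst] at h5
      obtain ⟨hM', hN'⟩ := hP' _ _ h5
      exact ⟨_, _, by rw [span_eq hM g hM', span_eq hN h hN'], h5⟩
  · obtain ⟨x, hx⟩ : ∃ x, eval x P ≠ 0 := by
      by_contra hcon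
      push Not at hcon
      exact hP0 (MvPolynomial.funext fun x => by rw [hcon x, map_zero])
    refine ⟨_, fun s => fun i j => x (Sum.inl (s, i, j)), fun s => fun i j => x (Sum.inr (s, i, j)),
      rfl, ?_⟩
    unfold value
    have h3 : (Sum.elim (fun t : Fin k1 × Fin a1 × Fin b1 => x (Sum.inl (t.1, t.2.1, t.2.2)))
        (fun t : Fin k2 × Fin a2 × Fin b2 => x (Sum.inr (t.1, t.2.1, t.2.2)))) = x := by
      funext t
      rcases t with t | t <;> rfl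
    rw [h3]
    exact hx
  · rintro S1 S2 ⟨M, N, h3, h4⟩
    obtain ⟨rfl, rfl⟩ := Prod.mk.inj h3
    obtain ⟨-, -, h5, h6, h7⟩ := hP M N h4
    refine ⟨?_, h6, h7⟩
    have h8 : minRank (Submodule.span ℂ (Set.range M)) = genericRank a1 b1 k1 := h6
    have h9 : minRank (Submodule.span ℂ (Set.range N)) = genericRank a2 b2 k2 := h7
    rw [h8, h9]
    unfold minRank
    rw [tensor_span]
    exact h5

end Pool.Agent.Results.MP_066b7c_al.GenericMinRank
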